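import Mathlib

/-!
Repeated angles in six-dimensional space.

For every angle `α` with `0 < α < π` (in particular for every obtuse one) the maximal number
`B 6 n α` of ordered triples of distinct points with angle `α` among `n` points of six-dimensional
Euclidean space has order of magnitude `n ^ 3`.

Construction.  Split the space as an orthogonal sum of three planes `D₁ ⊕ Π ⊕ D₂`.  Put the points
`X` on a small circle parallel to `D₁` about a point `p` of `Π`, the points `Z` on a small circle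
parallel to `D₂` about another point `q` of `Π`, and the points `Y` on the curve in `Π` given by
`⟪p - Y, q - Y⟫ = cos α * √((r² + |p - Y|²) (r² + |q - Y|²))`.
-/

set_option autoImplicit false

namespace Pool.Agent.Results.MP_6251d3_co.SixDimAngles

/-- The number of ordered triples `(X, Y, Z)` of distinct points of `S` with `∠ X Y Z = α`. -/
noncomputable def angleCount {k : ℕ} (S : Finset (EuclideanSpace ℝ (Fin k))) (α : ℝ) : ℕ :=
  {t : EuclideanSpace ℝ (Fin k) × EuclideanSpace ℝ (Fin k) × EuclideanSpace ℝ (Fin k) |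
    t.1 ∈ S ∧ t.2.1 ∈ S ∧ t.2.2 ∈ S ∧ t.1 ≠ t.2.1 ∧ t.2.1 ≠ t.2.2 ∧ t.1 ≠ t.2.2 ∧
      EuclideanGeometry.angle t.1 t.2.1 t.2.2 = α}.ncard

/-- `B k n α`: the largest value of `angleCount S α` over all `n`-point sets `S` in `ℝ^k`. -/
noncomputable def B (k n : ℕ) (α : ℝ) : ℕ :=
  sSup {c : ℕ | ∃ S : Finset (EuclideanSpace ℝ (Fin k)), S.card = n ∧ angleCount S α = c}

abbrev E6 := EuclideanSpace ℝ (Fin 6)

noncomputable def PX (e x : ℝ) : E6 := !₂[x, √(e - x ^ 2), -1, 0, 0, 0]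
noncomputable def PZ (e x : ℝ) : E6 := !₂[0, 0, 1, 0, x, √(e - x ^ 2)]
noncomputable def PY (u v : ℝ) : E6 := !₂[0, 0, u, v, 0, 0]

lemma exists_u (c : ℝ) (hc : |c| < 1) (e : ℝ) (he : e = (1 - |c|) / 3) (v : ℝ) (hv : v ^ 2 ≤ e) :
    ∃ u : ℝ, u ^ 2 - 1 + v ^ 2 =
      c * √((e + (1 + u) ^ 2 + v ^ 2) * (e + (1 - u) ^ 2 + v ^ 2)) := by
  have he0 : 0 < e := by rw [he]; linarith
  have hc0 : 0 ≤ |c| := abs_nonneg c
  have hv0 : 0 ≤ v ^ 2 := sq_nonneg v
  set G : ℝ → ℝ := fun u => u ^ 2 - 1 + v ^ 2 -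
      c * √((e + (1 + u) ^ 2 + v ^ 2) * (e + (1 - u) ^ 2 + v ^ 2)) with hG
  have hcont : Continuous G := by
    rw [hG]
    fun_prop
  set U : ℝ := √(3 / (1 - |c|)) with hU
  have hU0 : 0 ≤ U := Real.sqrt_nonneg _
  have hUsq : U ^ 2 = 3 / (1 - |c|) := by
    rw [hU, Real.sq_sqrt]
    apply div_nonneg <;> linarith
  have h0 : G 0 ≤ 0 := by
    have hs : √((e + (1 + (0:ℝ)) ^ 2 + v ^ 2) * (e + (1 - (0:ℝ)) ^ 2 + v ^ 2)) = e + 1 + v ^ 2 := by
      have : (e + (1 + (0:ℝ)) ^ 2 + v ^ 2) * (e + (1 - (0:ℝ)) ^ 2 + v ^ 2) = (e + 1 + v ^ 2) ^ 2 := by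
        ring
      rw [this, Real.sqrt_sq (by positivity)]
    simp only [hG]
    rw [hs]
    have h1 : -(c * (e + 1 + v ^ 2)) ≤ |c| * (e + 1 + v ^ 2) := by
      have := neg_abs_le c
      nlinarith
    have h2 : |c| * (e + 1 + v ^ 2) ≤ |c| * (1 + 2 * e) := by
      apply mul_le_mul_of_nonneg_left _ hc0
      linarith
    have h3 : |c| * (2 * e) ≤ 1 * (2 * e) := by
      apply mul_le_mul_of_nonneg_right hc.le
      linarith
    nlinarith
  have h1 : 0 ≤ G U := by
    have hs : √((e + (1 + U) ^ 2 + v ^ 2) * (e + (1 - U) ^ 2 + v ^ 2)) ≤ U ^ 2 + 1 + e + v ^ 2 := by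
      apply Real.sqrt_le_iff.mpr
      constructor
      · positivity
      · nlinarith [sq_nonneg U]
    have hs0 : 0 ≤ √((e + (1 + U) ^ 2 + v ^ 2) * (e + (1 - U) ^ 2 + v ^ 2)) := Real.sqrt_nonneg _
    simp only [hG]
    have h2 : c * √((e + (1 + U) ^ 2 + v ^ 2) * (e + (1 - U) ^ 2 + v ^ 2)) ≤
        |c| * (U ^ 2 + 1 + e + v ^ 2) :=
      (mul_le_mul_of_nonneg_right (le_abs_self c) hs0).trans (mul_le_mul_of_nonneg_left hs hc0)
    have h3 : (1 - |c|) * U ^ 2 = 3 := by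
      rw [hUsq]
      field_simp
      rw [div_self]; linarith
    have he1 : e ≤ 1 / 3 := by rw [he]; linarith
    have h4 : |c| * (1 + e + v ^ 2) ≤ 1 * (1 + e + v ^ 2) := by
      apply mul_le_mul_of_nonneg_right hc.le
      positivity
    nlinarith
  obtain ⟨u, -, hu⟩ := intermediate_value_Icc hU0 hcont.continuousOn ⟨h0, h1⟩
  exact ⟨u, by simp only [hG] at hu; linarith⟩

lemma angle_eq (α : ℝ) (h0 : 0 < α) (h1 : α < Real.pi) (e : ℝ) (he0 : 0 < e)
    (x z u v : ℝ) (hx : x ^ 2 ≤ e) (hz : z ^ 2 ≤ e)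
    (hu : u ^ 2 - 1 + v ^ 2 =
      Real.cos α * √((e + (1 + u) ^ 2 + v ^ 2) * (e + (1 - u) ^ 2 + v ^ 2))) :
    EuclideanGeometry.angle (PX e x) (PY u v) (PZ e z) = α := by
  have hsx : √(e - x ^ 2) ^ 2 = e - x ^ 2 := Real.sq_sqrt (by linarith)
  have hsz : √(e - z ^ 2) ^ 2 = e - z ^ 2 := Real.sq_sqrt (by linarith)
  have hinner : inner ℝ (PX e x - PY u v) (PZ e z - PY u v) = u ^ 2 - 1 + v ^ 2 := by
    simp [PX, PY, PZ, EuclideanSpace.inner_eq_star_dotProduct, Fin.sum_univ_succ, dotProduct]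
    ring
  have hn1 : ‖PX e x - PY u v‖ = √(e + (1 + u) ^ 2 + v ^ 2) := by
    rw [EuclideanSpace.norm_eq]
    congr 1
    simp [PX, PY, Fin.sum_univ_succ, hsx]
    ring
  have hn2 : ‖PZ e z - PY u v‖ = √(e + (1 - u) ^ 2 + v ^ 2) := by
    rw [EuclideanSpace.norm_eq]
    congr 1
    simp [PZ, PY, Fin.sum_univ_succ, hsz]
    ring
  have hpos : 0 < √((e + (1 + u) ^ 2 + v ^ 2) * (e + (1 - u) ^ 2 + v ^ 2)) := by
    apply Real.sqrt_pos.mpr
    positivity
  rw [EuclideanGeometry.angle, InnerProductGeometry.angle]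
  simp only [vsub_eq_sub]
  rw [hinner, hn1, hn2, ← Real.sqrt_mul (by positivity), hu, mul_div_assoc, div_self hpos.ne',
    mul_one, Real.arccos_cos h0.le h1.le]

lemma angleCount_finite {k : ℕ} (S : Finset (EuclideanSpace ℝ (Fin k))) (α : ℝ) :
    {t : EuclideanSpace ℝ (Fin k) × EuclideanSpace ℝ (Fin k) × EuclideanSpace ℝ (Fin k) |
    t.1 ∈ S ∧ t.2.1 ∈ S ∧ t.2.2 ∈ S ∧ t.1 ≠ t.2.1 ∧ t.2.1 ≠ t.2.2 ∧ t.1 ≠ t.2.2 ∧
      EuclideanGeometry.angle t.1 t.2.1 t.2.2 = α}.Finite := by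
  apply Set.Finite.subset (Finset.finite_toSet (S.product (S.product S)))
  intro t ht
  simp only [Finset.mem_coe, Finset.product_eq_sprod, Finset.mem_product]
  exact ⟨ht.1, ht.2.1, ht.2.2.1⟩

lemma angleCount_le {k : ℕ} (S : Finset (EuclideanSpace ℝ (Fin k))) (α : ℝ) :
    angleCount S α ≤ S.card ^ 3 := by
  have h : angleCount S α ≤ ((S.product (S.product S) :
      Finset (EuclideanSpace ℝ (Fin k) × EuclideanSpace ℝ (Fin k) × EuclideanSpace ℝ (Fin k))) :
      Set (EuclideanSpace ℝ (Fin k) × EuclideanSpace ℝ (Fin k) ×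
        EuclideanSpace ℝ (Fin k))).ncard := by
    apply Set.ncard_le_ncard
    · intro t ht
      simp only [Finset.mem_coe, Finset.product_eq_sprod, Finset.mem_product]
      exact ⟨ht.1, ht.2.1, ht.2.2.1⟩
    · exact Finset.finite_toSet _
  rw [Set.ncard_coe_finset, Finset.product_eq_sprod, Finset.product_eq_sprod,
    Finset.card_product, Finset.card_product] at h
  calc angleCount S α ≤ _ := h
    _ = S.card ^ 3 := by ring

lemma angleCount_mono {k : ℕ} {S T : Finset (EuclideanSpace ℝ (Fin k))} (hST : S ⊆ T) (α : ℝ) :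
    angleCount S α ≤ angleCount T α := by
  apply Set.ncard_le_ncard _ (angleCount_finite T α)
  intro t ht
  exact ⟨hST ht.1, hST ht.2.1, hST ht.2.2.1, ht.2.2.2⟩

lemma B_le (k n : ℕ) (α : ℝ) : B k n α ≤ n ^ 3 := by
  unfold B
  rcases Set.eq_empty_or_nonempty
    {c : ℕ | ∃ S : Finset (EuclideanSpace ℝ (Fin k)), S.card = n ∧ angleCount S α = c} with h | h
  · rw [h]; simp
  · apply csSup_le h
    rintro c ⟨S, hS, rfl⟩
    rw [← hS]
    exact angleCount_le S α

lemma le_B {k n : ℕ} {α : ℝ} (S : Finset (EuclideanSpace ℝ (Fin k))) (hS : S.card = n) :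
    angleCount S α ≤ B k n α := by
  apply le_csSup
  · refine ⟨n ^ 3, ?_⟩
    rintro c ⟨T, hT, rfl⟩
    rw [← hT]
    exact angleCount_le T α
  · exact ⟨S, hS, rfl⟩

lemma lower (α : ℝ) (h0 : 0 < α) (h1 : α < Real.pi) (n : ℕ) : (n / 3) ^ 3 ≤ B 6 n α := by
  classical
  set c : ℝ := Real.cos α with hc
  have hc1 : |c| < 1 := by
    rw [abs_lt]
    constructor
    · rw [hc, ← Real.cos_pi]
      exact Real.cos_lt_cos_of_nonneg_of_le_pi h0.le le_rfl h1
    · rw [hc, ← Real.cos_zero]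
      exact Real.cos_lt_cos_of_nonneg_of_le_pi le_rfl h1.le h0
  set e : ℝ := (1 - |c|) / 3 with he
  have he0 : 0 < e := by rw [he]; linarith
  have he1 : e < 1 := by
    have := abs_nonneg c
    rw [he]; linarith
  set m := n / 3 with hm
  obtain ⟨V, hVsub, hVcard⟩ := (Set.Icc_infinite he0).exists_subset_card_eq m
  have hV2 : ∀ v ∈ V, v ^ 2 ≤ e := by
    intro v hv
    have := hVsub hv
    rw [Set.mem_Icc] at this
    nlinarith [this.1, this.2]
  have hex : ∀ v : ℝ, ∃ u : ℝ, v ^ 2 ≤ e → u ^ 2 - 1 + v ^ 2 =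
      c * √((e + (1 + u) ^ 2 + v ^ 2) * (e + (1 - u) ^ 2 + v ^ 2)) := by
    intro v
    by_cases hv : v ^ 2 ≤ e
    · obtain ⟨u, hu⟩ := exists_u c hc1 e he v hv
      exact ⟨u, fun _ => hu⟩
    · exact ⟨0, fun h => absurd h hv⟩
  choose u hu using hex
  have injX : Function.Injective (PX e) := by
    intro a b hab
    have := congrFun (congrArg (fun w : E6 => w.ofLp) hab) 0
    simpa [PX] using this
  have injZ : Function.Injective (PZ e) := by
    intro a b hab
    have := congrFun (congrArg (fun w : E6 => w.ofLp) hab) 4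
    simpa [PZ] using this
  have injY : Function.Injective (fun v => PY (u v) v) := by
    intro a b hab
    have := congrFun (congrArg (fun w : E6 => w.ofLp) hab) 3
    simpa [PY] using this
  have neXZ : ∀ a b, PX e a ≠ PZ e b := by
    intro a b hab
    have := congrFun (congrArg (fun w : E6 => w.ofLp) hab) 2
    simp [PX, PZ] at this
    norm_num at this
  have neXY : ∀ a ∈ V, ∀ b, PX e a ≠ PY (u b) b := by
    intro a ha b hab
    have h0 := congrFun (congrArg (fun w : E6 => w.ofLp) hab) 0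
    have h1 := congrFun (congrArg (fun w : E6 => w.ofLp) hab) 1
    simp [PX, PY] at h0 h1
    rw [Real.sqrt_eq_zero (by have := hV2 a ha; linarith), h0] at h1
    norm_num at h1
    linarith
  have neZY : ∀ a ∈ V, ∀ b, PZ e a ≠ PY (u b) b := by
    intro a ha b hab
    have h0 := congrFun (congrArg (fun w : E6 => w.ofLp) hab) 4
    have h1 := congrFun (congrArg (fun w : E6 => w.ofLp) hab) 5
    simp [PZ, PY] at h0 h1
    rw [Real.sqrt_eq_zero (by have := hV2 a ha; linarith), h0] at h1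
    norm_num at h1
    linarith
  set S₀ : Finset E6 := V.image (PX e) ∪ V.image (fun v => PY (u v) v) ∪ V.image (PZ e) with hS₀
  have hS₀card : S₀.card ≤ n := by
    calc S₀.card ≤ (V.image (PX e) ∪ V.image (fun v => PY (u v) v)).card + (V.image (PZ e)).card :=
          Finset.card_union_le _ _
      _ ≤ ((V.image (PX e)).card + (V.image (fun v => PY (u v) v)).card) +
          (V.image (PZ e)).card := by
          gcongr
          exact Finset.card_union_le _ _
      _ ≤ (V.card + V.card) + V.card := by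
          gcongr <;> exact Finset.card_image_le
      _ ≤ n := by rw [hVcard, hm]; omega
  obtain ⟨S, hS₀S, hScard⟩ := Infinite.exists_superset_card_eq S₀ n hS₀card
  have hinj : Set.InjOn (fun t : ℝ × ℝ × ℝ => ((PX e t.1, PY (u t.2.1) t.2.1, PZ e t.2.2) :
      E6 × E6 × E6)) (((V ×ˢ V ×ˢ V : Finset (ℝ × ℝ × ℝ)) : Set (ℝ × ℝ × ℝ))) := by
    rintro ⟨a, b, d⟩ - ⟨a', b', d'⟩ - h
    simp only [Prod.mk.injEq] at h
    obtain ⟨h1, h2, h3⟩ := h
    have e1 := injX h1
    have e2 := injY h2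
    have e3 := injZ h3
    rw [e1, e2, e3]
  have hcount : m ^ 3 ≤ angleCount S α := by
    have himg : ((V ×ˢ V ×ˢ V : Finset (ℝ × ℝ × ℝ)).image
        (fun t : ℝ × ℝ × ℝ => ((PX e t.1, PY (u t.2.1) t.2.1, PZ e t.2.2) : E6 × E6 × E6))).card
        = m ^ 3 := by
      rw [Finset.card_image_of_injOn hinj, Finset.card_product, Finset.card_product, hVcard]
      ring
    rw [← himg, ← Set.ncard_coe_finset]
    apply Set.ncard_le_ncard _ (angleCount_finite S α)
    intro t ht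
    rw [Finset.coe_image] at ht
    obtain ⟨⟨a, b, d⟩, habd, rfl⟩ := ht
    simp only [Finset.coe_product, Set.mem_prod, Finset.mem_coe] at habd
    obtain ⟨ha, hb, hd⟩ := habd
    refine ⟨?_, ?_, ?_, ?_, ?_, ?_, ?_⟩
    · apply hS₀S
      simp only [hS₀, Finset.mem_union, Finset.mem_image]
      exact Or.inl (Or.inl ⟨a, ha, rfl⟩)
    · apply hS₀S
      simp only [hS₀, Finset.mem_union, Finset.mem_image]
      exact Or.inl (Or.inr ⟨b, hb, rfl⟩)
    · apply hS₀S
      simp only [hS₀, Finset.mem_union, Finset.mem_image]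
      exact Or.inr ⟨d, hd, rfl⟩
    · exact neXY a ha b
    · exact fun h => neZY d hd b h.symm
    · exact neXZ a d
    · exact angle_eq α h0 h1 e he0 a d (u b) b (hV2 a ha) (hV2 d hd) (hu b (hV2 b hb))
  exact hcount.trans (le_B S hScard)

/-- For every `α` with `0 < α < π`, in particular for every obtuse `α`, the maximal number
`B 6 n α` of ordered triples of distinct points, among `n` points of six-dimensional Euclidean
space, that form the angle `α` is at least `⌊n/3⌋³` and at most `n³`; hence its order of magnitude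
is `n³`, and `B 6 n α ≥ n³ / 216` for all `n ≥ 3`. -/
theorem result (α : ℝ) (h0 : 0 < α) (h1 : α < Real.pi) :
    (∀ n : ℕ, (n / 3) ^ 3 ≤ B 6 n α ∧ B 6 n α ≤ n ^ 3) ∧
    (∀ n : ℕ, 3 ≤ n → (1 / 216 : ℝ) * (n : ℝ) ^ 3 ≤ (B 6 n α : ℝ)) ∧
    (fun n : ℕ => (B 6 n α : ℝ)) =Θ[Filter.atTop] (fun n : ℕ => (n : ℝ) ^ 3) := by
  have key : ∀ n : ℕ, 3 ≤ n → (1 / 216 : ℝ) * (n : ℝ) ^ 3 ≤ (B 6 n α : ℝ) := by
    intro n hn
    have h := lower α h0 h1 n
    have h' : (((n / 3 : ℕ) : ℝ)) ^ 3 ≤ (B 6 n α : ℝ) := by exact_mod_cast h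
    have h6 : n ≤ 6 * (n / 3) := by omega
    have h6' : (n : ℝ) ≤ 6 * ((n / 3 : ℕ) : ℝ) := by exact_mod_cast h6
    have h7 : (n : ℝ) ^ 3 ≤ (6 * ((n / 3 : ℕ) : ℝ)) ^ 3 := by
      gcongr
    calc (1 / 216 : ℝ) * (n : ℝ) ^ 3 ≤ 1 / 216 * (6 * ((n / 3 : ℕ) : ℝ)) ^ 3 := by gcongr
      _ = ((n / 3 : ℕ) : ℝ) ^ 3 := by ring
      _ ≤ _ := h'
  refine ⟨fun n => ⟨lower α h0 h1 n, B_le 6 n α⟩, key, ?_, ?_⟩
  · apply Asymptotics.IsBigO.of_bound 1
    filter_upwards with n
    rw [Real.norm_of_nonneg (by positivity), Real.norm_of_nonneg (by positivity), one_mul]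
    exact_mod_cast B_le 6 n α
  · apply Asymptotics.IsBigO.of_bound 216
    filter_upwards [Filter.eventually_ge_atTop 3] with n hn
    rw [Real.norm_of_nonneg (by positivity), Real.norm_of_nonneg (by positivity)]
    have := key n hn
    linarith

end Pool.Agent.Results.MP_6251d3_co.SixDimAngles
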